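import Mathlib

namespace Pool.Agent.H38.HT

open MulAction Filter

/-- shift of a finitely supported function on `ℤ` -/
noncomputable def sh {A : Type} [Zero A] (n : ℤ) (f : ℤ →₀ A) : ℤ →₀ A :=
  Finsupp.equivMapDomain (Equiv.addRight n) f

@[simp] lemma sh_apply {A : Type} [Zero A] (n : ℤ) (f : ℤ →₀ A) (i : ℤ) :
    sh n f i = f (i - n) := rfl

/-- multiplication of `x : ZMod 3` by the sign `(-1)^a` if `θ = true`, and `x` itself if
`θ = false` -/
def sg (θ : Bool) (a : ZMod 2) (x : ZMod 3) : ZMod 3 := if θ = true ∧ a = 1 then -x else x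

lemma sg_add : ∀ (θ : Bool) (a b : ZMod 2) (x : ZMod 3), sg θ (a + b) x = sg θ a (sg θ b x) := by
  decide

lemma sg_add' : ∀ (θ : Bool) (a : ZMod 2) (x y : ZMod 3), sg θ a (x + y) = sg θ a x + sg θ a y := by
  decide

lemma sg_zero : ∀ (θ : Bool) (x : ZMod 3), sg θ 0 x = x := by decide

lemma sg_map_zero : ∀ (θ : Bool) (a : ZMod 2), sg θ a 0 = 0 := by decide

lemma sg_false : ∀ (a : ZMod 2) (x : ZMod 3), sg false a x = x := by decide

/-- twisting a `ZMod 3`-valued configuration by signs -/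
noncomputable def tw (θ : Bool) (ε : ℤ →₀ ZMod 2) (c : ℤ →₀ ZMod 3) : ℤ →₀ ZMod 3 :=
  Finsupp.zipWith (sg θ) (sg_map_zero θ 0) ε c

@[simp] lemma tw_apply (θ : Bool) (ε : ℤ →₀ ZMod 2) (c : ℤ →₀ ZMod 3) (i : ℤ) :
    tw θ ε c i = sg θ (ε i) (c i) := rfl

lemma tw_add (θ : Bool) (ε δ : ℤ →₀ ZMod 2) (c : ℤ →₀ ZMod 3) :
    tw θ (ε + δ) c = tw θ ε (tw θ δ c) := by
  ext i
  simp only [tw_apply, Finsupp.add_apply]
  exact sg_add _ _ _ _

lemma tw_zero (θ : Bool) (c : ℤ →₀ ZMod 3) : tw θ 0 c = c := by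
  ext i; exact sg_zero _ _

lemma tw_false (ε : ℤ →₀ ZMod 2) (c : ℤ →₀ ZMod 3) : tw false ε c = c := by
  ext i; exact sg_false (ε i) (c i)

lemma tw_add' (θ : Bool) (ε : ℤ →₀ ZMod 2) (c d : ℤ →₀ ZMod 3) :
    tw θ ε (c + d) = tw θ ε c + tw θ ε d := by
  ext i
  exact sg_add' _ _ _ _

lemma tw_map_zero (θ : Bool) (ε : ℤ →₀ ZMod 2) : tw θ ε 0 = 0 := by
  ext i
  exact sg_map_zero _ _

lemma sh_tw (θ : Bool) (n : ℤ) (ε : ℤ →₀ ZMod 2) (c : ℤ →₀ ZMod 3) :
    sh n (tw θ ε c) = tw θ (sh n ε) (sh n c) := by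
  ext i
  simp

lemma sh_add {A : Type} [AddCommGroup A] (n : ℤ) (f g : ℤ →₀ A) :
    sh n (f + g) = sh n f + sh n g := by
  ext i; simp

lemma sh_sh {A : Type} [AddCommGroup A] (n m : ℤ) (f : ℤ →₀ A) :
    sh n (sh m f) = sh (m + n) f := by
  ext i; simp [sub_sub, add_comm]

lemma sh_zero {A : Type} [AddCommGroup A] (f : ℤ →₀ A) : sh 0 f = f := by
  ext i; simp

lemma sh_map_zero {A : Type} [AddCommGroup A] (n : ℤ) : sh n (0 : ℤ →₀ A) = 0 := by
  ext i; simp

lemma sh_single {A : Type} [AddCommGroup A] (n i : ℤ) (a : A) :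
    sh n (Finsupp.single i a) = Finsupp.single (i + n) a := by
  ext j
  simp only [sh_apply, Finsupp.single_apply]
  congr 1
  simp only [eq_iff_iff]
  constructor <;> intro h <;> omega

/-- the lamplighter group -/
@[ext] structure Lamp where
  lamp : ℤ →₀ ZMod 2
  pos : ℤ

noncomputable instance : Group Lamp where
  mul x y := ⟨x.lamp + sh x.pos y.lamp, x.pos + y.pos⟩
  one := ⟨0, 0⟩
  inv x := ⟨-(sh (-x.pos) x.lamp), -x.pos⟩
  mul_assoc x y z := by
    show Lamp.mk (x.lamp + sh x.pos y.lamp + sh (x.pos + y.pos) z.lamp) (x.pos + y.pos + z.pos) =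
      Lamp.mk (x.lamp + sh x.pos (y.lamp + sh y.pos z.lamp)) (x.pos + (y.pos + z.pos))
    rw [sh_add, sh_sh, add_assoc, add_assoc, add_comm y.pos x.pos]
  one_mul x := by
    show Lamp.mk (0 + sh 0 x.lamp) (0 + x.pos) = x
    rw [sh_zero, zero_add, zero_add]
  mul_one x := by
    show Lamp.mk (x.lamp + sh x.pos 0) (x.pos + 0) = x
    rw [sh_map_zero, add_zero, add_zero]
  inv_mul_cancel x := by
    show Lamp.mk (-(sh (-x.pos) x.lamp) + sh (-x.pos) x.lamp) (-x.pos + x.pos) = Lamp.mk 0 0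
    simp

lemma Lamp.mul_def (x y : Lamp) : x * y = ⟨x.lamp + sh x.pos y.lamp, x.pos + y.pos⟩ := rfl
@[simp] lemma Lamp.mul_lamp (x y : Lamp) : (x * y).lamp = x.lamp + sh x.pos y.lamp := rfl
@[simp] lemma Lamp.mul_pos (x y : Lamp) : (x * y).pos = x.pos + y.pos := rfl
@[simp] lemma Lamp.one_lamp : (1 : Lamp).lamp = 0 := rfl
@[simp] lemma Lamp.one_pos : (1 : Lamp).pos = 0 := rfl
@[simp] lemma Lamp.inv_lamp (x : Lamp) : (x⁻¹).lamp = -(sh (-x.pos) x.lamp) := rfl
@[simp] lemma Lamp.inv_pos (x : Lamp) : (x⁻¹).pos = -x.pos := rfl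

/-- the set being acted upon -/
abbrev X : Type := (ℤ →₀ ZMod 3) × ℤ

/-- the action of a lamplighter element, as a function -/
noncomputable def act (θ : Bool) (l : Lamp) (x : X) : X := (tw θ l.lamp (sh l.pos x.1), x.2 + l.pos)

lemma act_mul (θ : Bool) (l l' : Lamp) (x : X) : act θ (l * l') x = act θ l (act θ l' x) := by
  simp only [act, Lamp.mul_lamp, Lamp.mul_pos, tw_add, sh_tw, sh_sh]
  rw [add_comm l.pos l'.pos, add_assoc]

lemma act_one (θ : Bool) (x : X) : act θ 1 x = x := by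
  simp [act, tw_zero, sh_zero]

/-- the permutation representation of the lamplighter group -/
noncomputable def rho (θ : Bool) : Lamp →* Equiv.Perm X where
  toFun l :=
    { toFun := act θ l
      invFun := act θ l⁻¹
      left_inv := fun x => by rw [← act_mul, inv_mul_cancel, act_one]
      right_inv := fun x => by rw [← act_mul, mul_inv_cancel, act_one] }
  map_one' := by ext1 x; exact act_one θ x
  map_mul' l l' := by ext1 x; exact act_mul θ l l' x

@[simp] lemma rho_apply (θ : Bool) (l : Lamp) (x : X) :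
    rho θ l x = (tw θ l.lamp (sh l.pos x.1), x.2 + l.pos) := rfl

/-- translations -/
noncomputable def T (b : ℤ →₀ ZMod 3) : Equiv.Perm X := (Equiv.addLeft b).prodCongr (Equiv.refl ℤ)

@[simp] lemma T_apply (b : ℤ →₀ ZMod 3) (x : X) : T b x = (b + x.1, x.2) := rfl

lemma T_add (b c : ℤ →₀ ZMod 3) : T (b + c) = T b * T c := by
  ext1 x; simp [add_assoc]

lemma T_zero : T 0 = 1 := by
  ext1 x; simp

lemma rho_T (θ : Bool) (l : Lamp) (b : ℤ →₀ ZMod 3) :
    rho θ l * T b = T (tw θ l.lamp (sh l.pos b)) * rho θ l := by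
  ext1 x
  simp [sh_add, tw_add']

lemma near_comp {f g f' g' : Equiv.Perm X} (h : ∀ᶠ x in cofinite, f x = g x)
    (h' : ∀ᶠ x in cofinite, f' x = g' x) : ∀ᶠ x in cofinite, (f * f') x = (g * g') x := by
  have h1 : ∀ᶠ x in cofinite, f (g' x) = g (g' x) := g'.injective.tendsto_cofinite.eventually h
  filter_upwards [h1, h'] with x hx hx'
  rw [Equiv.Perm.mul_apply, Equiv.Perm.mul_apply, hx', hx]

lemma near_inv {f g : Equiv.Perm X} (h : ∀ᶠ x in cofinite, f x = g x) :
    ∀ᶠ x in cofinite, (f⁻¹) x = (g⁻¹) x := by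
  have h1 : ∀ᶠ x in cofinite, f ((g⁻¹) x) = g ((g⁻¹) x) :=
    (g⁻¹).injective.tendsto_cofinite.eventually h
  filter_upwards [h1] with x hx
  rw [Equiv.Perm.inv_eq_iff_eq, hx]
  simp

/-- The two groups: `GG false` and `GG true`. -/
noncomputable def GG (θ : Bool) : Subgroup (Equiv.Perm X × Lamp) where
  carrier := {p | ∃ b, ∀ᶠ x in cofinite, p.1 x = (T b * rho θ p.2) x}
  one_mem' := ⟨0, by simp [T_zero]⟩
  mul_mem' := by
    rintro p q ⟨b, hb⟩ ⟨c, hc⟩
    refine ⟨b + tw θ p.2.lamp (sh p.2.pos c), ?_⟩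
    have := near_comp hb hc
    convert! this using 3
    rw [T_add, Prod.snd_mul, map_mul, mul_assoc, mul_assoc, ← mul_assoc _ (rho θ p.2) (rho θ q.2),
      ← rho_T, mul_assoc]
  inv_mem' := by
    rintro p ⟨b, hb⟩
    refine ⟨tw θ p.2⁻¹.lamp (sh p.2⁻¹.pos (-b)), ?_⟩
    have := near_inv hb
    convert! this using 3
    rw [Prod.snd_inv, ← rho_T, mul_inv_rev, map_inv]
    have hT : T (-b) = (T b)⁻¹ := by
      rw [eq_inv_iff_mul_eq_one, ← T_add]
      simp [T_zero]
    rw [hT]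



lemma mem_GG {θ : Bool} {p : Equiv.Perm X × Lamp} :
    p ∈ GG θ ↔ ∃ b, ∀ᶠ x in cofinite, p.1 x = (T b * rho θ p.2) x := Iff.rfl

/-- lamplighter elements in `GG θ` -/
noncomputable def lEl (θ : Bool) : Lamp →* GG θ :=
  ((rho θ).prod (MonoidHom.id Lamp)).codRestrict (GG θ) (fun l => ⟨0, by simp [T_zero]⟩)

@[simp] lemma lEl_fst (θ : Bool) (l : Lamp) : (lEl θ l).1.1 = rho θ l := rfl
@[simp] lemma lEl_snd (θ : Bool) (l : Lamp) : (lEl θ l).1.2 = l := rfl

/-- translations in `GG θ` -/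
noncomputable def trEl (θ : Bool) (b : ℤ →₀ ZMod 3) : GG θ := ⟨(T b, 1), ⟨b, by simp⟩⟩

@[simp] lemma trEl_fst (θ : Bool) (b : ℤ →₀ ZMod 3) : (trEl θ b).1.1 = T b := rfl
@[simp] lemma trEl_snd (θ : Bool) (b : ℤ →₀ ZMod 3) : (trEl θ b).1.2 = 1 := rfl

open Classical in
lemma finEl_mem (θ : Bool) (σ : Equiv.Perm X) (h : (fixedBy X σ)ᶜ.Finite) :
    (σ, (1 : Lamp)) ∈ GG θ := by
  refine ⟨0, ?_⟩
  have : {x | x ∉ (fixedBy X σ)ᶜ} ∈ (cofinite : Filter X) := h.compl_mem_cofinite
  filter_upwards [this] with x hx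
  have hx' : σ • x = x := by
    by_contra hne
    exact hx hne
  simpa [T_zero] using hx'

open Classical in
lemma swap_mem (θ : Bool) (x y : X) : (Equiv.swap x y, (1 : Lamp)) ∈ GG θ :=
  finEl_mem θ _ finite_compl_fixedBy_swap

open Classical in
/-- transpositions in `GG θ` -/
noncomputable def swEl (θ : Bool) (x y : X) : GG θ := ⟨(Equiv.swap x y, 1), swap_mem θ x y⟩

open Classical in
@[simp] lemma swEl_fst (θ : Bool) (x y : X) : (swEl θ x y).1.1 = Equiv.swap x y := rfl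
@[simp] lemma swEl_snd (θ : Bool) (x y : X) : (swEl θ x y).1.2 = 1 := rfl

/-- the base point -/
noncomputable def x0 : X := (0, 0)
/-- neighbours of the base point -/
noncomputable def xa (a : ZMod 3) : X := (Finsupp.single 0 a, 0)
/-- neighbour of the base point -/
noncomputable def xt : X := (0, 1)

open Classical in
/-- the generating set -/
noncomputable def SS (θ : Bool) : Finset (GG θ) :=
  {swEl θ x0 (xa 1), swEl θ x0 (xa (-1)), swEl θ x0 xt, trEl θ (Finsupp.single 0 1),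
    trEl θ (Finsupp.single 0 (-1)), lEl θ ⟨Finsupp.single 0 1, 0⟩, lEl θ ⟨0, 1⟩}

/-- the comparison bijection -/
noncomputable def kap (l : Lamp) : Equiv.Perm X := (rho false l)⁻¹ * rho true l

lemma kap_apply (l : Lamp) (x : X) : kap l x = (tw true (sh (-l.pos) l.lamp) x.1, x.2) := by
  rw [kap, Equiv.Perm.mul_apply, Equiv.Perm.inv_eq_iff_eq]
  simp [tw_false, sh_tw, sh_sh, sh_zero]

lemma kap_inv_apply (l : Lamp) (x : X) : (kap l)⁻¹ x = (tw true (sh (-l.pos) l.lamp) x.1, x.2) := by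
  rw [Equiv.Perm.inv_eq_iff_eq, kap_apply]
  ext i
  · simp only [tw_apply]
    rw [← sg_add]
    generalize (sh (-l.pos) l.lamp) i = a
    revert a
    have : ∀ (a : ZMod 2) (x : ZMod 3), x = sg true (a + a) x := by decide
    intro a
    exact this a _
  · rfl

/-- the comparison bijection -/
noncomputable def phi : GG false ≃ GG true where
  toFun p := ⟨(p.1.1 * kap p.1.2, p.1.2), by
    obtain ⟨b, hb⟩ := p.2
    refine ⟨b, ?_⟩
    have h1 : ∀ᶠ x in cofinite, (kap p.1.2) x = (kap p.1.2) x := Eventually.of_forall fun x => rfl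
    have := near_comp hb h1
    convert! this using 3
    simp [kap, mul_assoc]⟩
  invFun p := ⟨(p.1.1 * (kap p.1.2)⁻¹, p.1.2), by
    obtain ⟨b, hb⟩ := p.2
    refine ⟨b, ?_⟩
    have h1 : ∀ᶠ x in cofinite, ((kap p.1.2)⁻¹) x = ((kap p.1.2)⁻¹) x :=
      Eventually.of_forall fun x => rfl
    have := near_comp hb h1
    convert! this using 3
    simp [kap, mul_assoc]⟩
  left_inv p := by ext1; ext1 <;> simp
  right_inv p := by ext1; ext1 <;> simp

lemma phi_coe (p : GG false) : (phi p).1 = (p.1.1 * kap p.1.2, p.1.2) := rfl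
@[simp] lemma phi_fst (p : GG false) : (phi p).1.1 = p.1.1 * kap p.1.2 := by rw [phi_coe]
@[simp] lemma phi_snd (p : GG false) : (phi p).1.2 = p.1.2 := by rw [phi_coe]

lemma phi_one : phi 1 = 1 := by
  ext1; ext1 <;> simp [kap]

lemma phi_lEl (p : GG false) (l : Lamp) : phi (p * lEl false l) = phi p * lEl true l := by
  ext1
  ext1
  · simp [kap, mul_assoc]
  · simp

lemma phi_trEl (p : GG false) (b : ℤ →₀ ZMod 3) :
    phi (p * trEl false b) = phi p * trEl true (tw true (sh (-p.1.2.pos) p.1.2.lamp) b) := by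
  ext1
  ext1
  · simp only [phi_fst, Subgroup.coe_mul, Prod.fst_mul, Prod.snd_mul, trEl_fst, trEl_snd,
      mul_one]
    rw [mul_assoc, mul_assoc]
    congr 1
    rw [← inv_mul_eq_iff_eq_mul]
    ext1 x
    rw [Equiv.Perm.mul_apply, kap_inv_apply]
    simp only [Equiv.Perm.mul_apply, T_apply, kap_apply, tw_add']
    congr 2
    ext i
    simp only [tw_apply]
    rw [← sg_add]
    generalize (sh (-p.1.2.pos) p.1.2.lamp) i = a
    generalize x.1 i = c
    revert a c
    decide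
  · simp

open Classical in
lemma phi_swEl (p : GG false) (x y : X) :
    phi (p * swEl false x y) = phi p * swEl true ((kap p.1.2)⁻¹ x) ((kap p.1.2)⁻¹ y) := by
  ext1
  ext1
  · simp only [phi_fst, Subgroup.coe_mul, Prod.fst_mul, Prod.snd_mul, swEl_fst, swEl_snd,
      mul_one]
    rw [mul_assoc, mul_assoc]
    congr 1
    rw [Equiv.swap_apply_apply]
    simp [mul_assoc]
  · simp



lemma tw_single (θ : Bool) (ε : ℤ →₀ ZMod 2) (i : ℤ) (a : ZMod 3) :
    tw θ ε (Finsupp.single i a) = Finsupp.single i (sg θ (ε i) a) := by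
  ext j
  simp only [tw_apply]
  by_cases h : i = j
  · subst h; simp
  · simp [Finsupp.single_eq_of_ne' h, sg_map_zero]

lemma sg_cases : ∀ (θ : Bool) (a : ZMod 2), (sg θ a 1 = 1 ∧ sg θ a (-1) = -1) ∨
    (sg θ a 1 = -1 ∧ sg θ a (-1) = 1) := by decide

lemma kap_inv_x0 (l : Lamp) : (kap l)⁻¹ x0 = x0 := by
  rw [kap_inv_apply]; simp [x0, tw_map_zero]

lemma kap_inv_xt (l : Lamp) : (kap l)⁻¹ xt = xt := by
  rw [kap_inv_apply]; simp [xt, tw_map_zero]

lemma kap_inv_xa (l : Lamp) (a : ZMod 3) :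
    (kap l)⁻¹ (xa a) = xa (sg true ((sh (-l.pos) l.lamp) 0) a) := by
  rw [kap_inv_apply]; simp only [xa]; rw [tw_single]

lemma edge_fwd (g : GG false) : ∀ s ∈ SS false, ∃ t ∈ SS true, phi (g * s) = phi g * t := by
  intro s hs
  simp only [SS, Finset.mem_insert, Finset.mem_singleton] at hs
  have key := sg_cases true ((sh (-g.1.2.pos) g.1.2.lamp) 0)
  rcases hs with rfl | rfl | rfl | rfl | rfl | rfl | rfl
  · rcases key with ⟨k1, k2⟩ | ⟨k1, k2⟩
    · refine ⟨swEl true x0 (xa 1), by simp [SS], ?_⟩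
      rw [phi_swEl, kap_inv_x0, kap_inv_xa, k1]
    · refine ⟨swEl true x0 (xa (-1)), by simp [SS], ?_⟩
      rw [phi_swEl, kap_inv_x0, kap_inv_xa, k1]
  · rcases key with ⟨k1, k2⟩ | ⟨k1, k2⟩
    · refine ⟨swEl true x0 (xa (-1)), by simp [SS], ?_⟩
      rw [phi_swEl, kap_inv_x0, kap_inv_xa, k2]
    · refine ⟨swEl true x0 (xa 1), by simp [SS], ?_⟩
      rw [phi_swEl, kap_inv_x0, kap_inv_xa, k2]
  · refine ⟨swEl true x0 xt, by simp [SS], ?_⟩
    rw [phi_swEl, kap_inv_x0, kap_inv_xt]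
  · rcases key with ⟨k1, k2⟩ | ⟨k1, k2⟩
    · refine ⟨trEl true (Finsupp.single 0 1), by simp [SS], ?_⟩
      rw [phi_trEl, tw_single, k1]
    · refine ⟨trEl true (Finsupp.single 0 (-1)), by simp [SS], ?_⟩
      rw [phi_trEl, tw_single, k1]
  · rcases key with ⟨k1, k2⟩ | ⟨k1, k2⟩
    · refine ⟨trEl true (Finsupp.single 0 (-1)), by simp [SS], ?_⟩
      rw [phi_trEl, tw_single, k2]
    · refine ⟨trEl true (Finsupp.single 0 1), by simp [SS], ?_⟩
      rw [phi_trEl, tw_single, k2]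
  · exact ⟨lEl true ⟨Finsupp.single 0 1, 0⟩, by simp [SS], phi_lEl _ _⟩
  · exact ⟨lEl true ⟨0, 1⟩, by simp [SS], phi_lEl _ _⟩

lemma edge_bwd (g : GG false) : ∀ t ∈ SS true, ∃ s ∈ SS false, phi (g * s) = phi g * t := by
  intro s hs
  simp only [SS, Finset.mem_insert, Finset.mem_singleton] at hs
  have key := sg_cases true ((sh (-g.1.2.pos) g.1.2.lamp) 0)
  rcases hs with rfl | rfl | rfl | rfl | rfl | rfl | rfl
  · rcases key with ⟨k1, k2⟩ | ⟨k1, k2⟩
    · refine ⟨swEl false x0 (xa 1), by simp [SS], ?_⟩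
      rw [phi_swEl, kap_inv_x0, kap_inv_xa, k1]
    · refine ⟨swEl false x0 (xa (-1)), by simp [SS], ?_⟩
      rw [phi_swEl, kap_inv_x0, kap_inv_xa, k2]
  · rcases key with ⟨k1, k2⟩ | ⟨k1, k2⟩
    · refine ⟨swEl false x0 (xa (-1)), by simp [SS], ?_⟩
      rw [phi_swEl, kap_inv_x0, kap_inv_xa, k2]
    · refine ⟨swEl false x0 (xa 1), by simp [SS], ?_⟩
      rw [phi_swEl, kap_inv_x0, kap_inv_xa, k1]
  · refine ⟨swEl false x0 xt, by simp [SS], ?_⟩
    rw [phi_swEl, kap_inv_x0, kap_inv_xt]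
  · rcases key with ⟨k1, k2⟩ | ⟨k1, k2⟩
    · refine ⟨trEl false (Finsupp.single 0 1), by simp [SS], ?_⟩
      rw [phi_trEl, tw_single, k1]
    · refine ⟨trEl false (Finsupp.single 0 (-1)), by simp [SS], ?_⟩
      rw [phi_trEl, tw_single, k2]
  · rcases key with ⟨k1, k2⟩ | ⟨k1, k2⟩
    · refine ⟨trEl false (Finsupp.single 0 (-1)), by simp [SS], ?_⟩
      rw [phi_trEl, tw_single, k2]
    · refine ⟨trEl false (Finsupp.single 0 1), by simp [SS], ?_⟩
      rw [phi_trEl, tw_single, k1]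
  · exact ⟨lEl false ⟨Finsupp.single 0 1, 0⟩, by simp [SS], phi_lEl _ _⟩
  · exact ⟨lEl false ⟨0, 1⟩, by simp [SS], phi_lEl _ _⟩

/-! ### Generation -/

lemma lamp_zpow (n : ℤ) : ((⟨0, 1⟩ : Lamp)) ^ n = ⟨0, n⟩ := by
  let f : Multiplicative ℤ →* Lamp :=
    { toFun := fun n => ⟨0, n.toAdd⟩
      map_one' := rfl
      map_mul' := fun a b => by
        ext1
        · simp [sh_map_zero]
        · simp }
  have : f (Multiplicative.ofAdd 1 ^ n) = f (Multiplicative.ofAdd 1) ^ n := map_zpow f _ n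
  have h2 : (Multiplicative.ofAdd (1 : ℤ)) ^ n = Multiplicative.ofAdd n := by
    rw [← ofAdd_zsmul]; simp
  rw [h2] at this
  exact this.symm

lemma lamp_gen (P : Subgroup Lamp) (h1 : (⟨Finsupp.single 0 1, 0⟩ : Lamp) ∈ P)
    (h2 : (⟨0, 1⟩ : Lamp) ∈ P) (l : Lamp) : l ∈ P := by
  have hz : ∀ n : ℤ, (⟨0, n⟩ : Lamp) ∈ P := fun n => by
    rw [← lamp_zpow]; exact P.zpow_mem h2 n
  have hs : ∀ (i : ℤ) (a : ZMod 2), (⟨Finsupp.single i a, 0⟩ : Lamp) ∈ P := by
    intro i a
    have h3 : (⟨Finsupp.single i 1, 0⟩ : Lamp) ∈ P := by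
      have : (⟨Finsupp.single i 1, 0⟩ : Lamp) = ⟨0, i⟩ * ⟨Finsupp.single 0 1, 0⟩ * ⟨0, -i⟩ := by
        ext1
        · simp [sh_single, sh_map_zero]
        · simp
      rw [this]
      exact P.mul_mem (P.mul_mem (hz i) h1) (hz (-i))
    have ha : a = 0 ∨ a = 1 := by revert a; decide
    rcases ha with rfl | rfl
    · have : (⟨Finsupp.single i 0, 0⟩ : Lamp) = 1 := by
        ext1
        · simp
        · simp
      rw [this]; exact P.one_mem
    · exact h3
  have he : ∀ ε : ℤ →₀ ZMod 2, (⟨ε, 0⟩ : Lamp) ∈ P := by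
    intro ε
    induction ε using Finsupp.induction_linear with
    | zero => exact P.one_mem
    | add f g hf hg =>
      have : (⟨f + g, 0⟩ : Lamp) = ⟨f, 0⟩ * ⟨g, 0⟩ := by
        ext1
        · simp [sh_zero]
        · simp
      rw [this]; exact P.mul_mem hf hg
    | single i a => exact hs i a
  have : l = ⟨l.lamp, 0⟩ * ⟨0, l.pos⟩ := by
    ext1
    · simp [sh_map_zero]
    · simp
  rw [this]
  exact P.mul_mem (he _) (hz _)

open Classical in
lemma gen_false : Subgroup.closure ((SS false : Finset (GG false)) : Set (GG false)) = ⊤ := by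
  set P := Subgroup.closure ((SS false : Finset (GG false)) : Set (GG false)) with hP
  have hl : ∀ l : Lamp, lEl false l ∈ P := by
    intro l
    have : l ∈ P.comap (lEl false) := by
      apply lamp_gen
      · exact Subgroup.subset_closure (by simp [SS])
      · exact Subgroup.subset_closure (by simp [SS])
    exact this
  have hconj : ∀ (i : ℤ) (a : ZMod 3), trEl false (Finsupp.single i a) =
      lEl false ⟨0, i⟩ * trEl false (Finsupp.single 0 a) * lEl false ⟨0, -i⟩ := by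
    intro i a
    ext1
    ext1
    · simp only [Subgroup.coe_mul, Prod.fst_mul, trEl_fst, lEl_fst]
      rw [rho_T, mul_assoc, ← map_mul]
      have : (⟨0, i⟩ * ⟨0, -i⟩ : Lamp) = 1 := by
        ext1
        · simp [sh_map_zero]
        · simp
      rw [this, map_one, mul_one]
      simp [tw_zero, sh_single]
    · simp only [Subgroup.coe_mul, Prod.snd_mul, trEl_snd, lEl_snd, mul_one]
      ext1
      · simp [sh_map_zero]
      · simp
  have ht1 : trEl false (Finsupp.single 0 1) ∈ P := Subgroup.subset_closure (by simp [SS])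
  have ht2 : trEl false (Finsupp.single 0 (-1)) ∈ P := Subgroup.subset_closure (by simp [SS])
  have htz : trEl false 0 = 1 := by
    ext1
    ext1
    · simp [T_zero]
    · simp
  have hta : ∀ b c, trEl false (b + c) = trEl false b * trEl false c := by
    intro b c
    ext1
    ext1
    · simp [T_add]
    · simp
  have ht0 : ∀ a : ZMod 3, trEl false (Finsupp.single 0 a) ∈ P := by
    intro a
    have ha : a = 0 ∨ a = 1 ∨ a = -1 := by revert a; decide
    rcases ha with rfl | rfl | rfl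
    · rw [Finsupp.single_zero, htz]; exact P.one_mem
    · exact ht1
    · exact ht2
  have ht : ∀ b, trEl false b ∈ P := by
    intro b
    induction b using Finsupp.induction_linear with
    | zero => rw [htz]; exact P.one_mem
    | add f g hf hg => rw [hta]; exact P.mul_mem hf hg
    | single i a =>
      rw [hconj]
      exact P.mul_mem (P.mul_mem (hl _) (ht0 a)) (hl _)
  -- transpositions
  let inl : Equiv.Perm X →* Equiv.Perm X × Lamp := MonoidHom.inl _ _
  let D : Subgroup (Equiv.Perm X) := (P.map (GG false).subtype).comap inl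
  have hD : ∀ σ : Equiv.Perm X, σ ∈ D ↔ ∃ h : (σ, (1 : Lamp)) ∈ GG false, (⟨(σ, 1), h⟩ : GG false) ∈ P := by
    intro σ
    simp only [D, Subgroup.mem_comap, Subgroup.mem_map]
    constructor
    · rintro ⟨p, hp, hp'⟩
      have h3 : p.1 = (σ, 1) := hp'
      refine ⟨h3 ▸ p.2, ?_⟩
      have : p = ⟨(σ, 1), h3 ▸ p.2⟩ := Subtype.ext h3
      rwa [this] at hp
    · rintro ⟨h, h'⟩
      exact ⟨_, h', rfl⟩
  let E : Set (Equiv.Perm X) := {σ | ∃ (b : ℤ →₀ ZMod 3) (m : ℤ),
    σ = Equiv.swap (b, m) (b + Finsupp.single m 1, m) ∨ σ = Equiv.swap (b, m) (b, m + 1)}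
  have hEs : ∀ f ∈ E, f.IsSwap := by
    rintro f ⟨b, m, rfl | rfl⟩
    · refine ⟨_, _, ?_, rfl⟩
      intro h
      have h1 : b = b + Finsupp.single m 1 := congrArg Prod.fst h
      have h2 := DFunLike.congr_fun h1 m
      simp at h2
    · refine ⟨_, _, ?_, rfl⟩
      intro h
      have h1 : m = m + 1 := congrArg Prod.snd h
      omega
  have hED : E ⊆ D := by
    have hgen : ∀ (b : ℤ →₀ ZMod 3) (m : ℤ) (y : X), swEl false x0 y ∈ P →
        Equiv.swap (b, m) ((T b * rho false ⟨0, m⟩) y) ∈ D := by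
      intro b m y hy
      rw [hD]
      refine ⟨swap_mem _ _ _, ?_⟩
      have heq : (⟨(Equiv.swap (b, m) ((T b * rho false ⟨0, m⟩) y), 1), swap_mem false _ _⟩ :
          GG false) = (trEl false b * lEl false ⟨0, m⟩) * swEl false x0 y *
            (trEl false b * lEl false ⟨0, m⟩)⁻¹ := by
        ext1
        ext1
        · have hx : ((b, m) : X) = (T b * rho false ⟨0, m⟩) x0 := by
            simp [x0, sh_map_zero, tw_map_zero]
          show Equiv.swap (b, m) ((T b * rho false ⟨0, m⟩) y) =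
            (T b * rho false ⟨0, m⟩) * Equiv.swap x0 y * (T b * rho false ⟨0, m⟩)⁻¹
          rw [hx, Equiv.swap_apply_apply]
        · simp
      rw [heq]
      exact P.mul_mem (P.mul_mem (P.mul_mem (ht _) (hl _)) hy)
        (P.inv_mem (P.mul_mem (ht _) (hl _)))
    rintro f ⟨b, m, rfl | rfl⟩
    · have := hgen b m (xa 1) (Subgroup.subset_closure (by simp [SS]))
      simpa [xa, tw_false, sh_single] using this
    · have := hgen b m xt (Subgroup.subset_closure (by simp [SS]))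
      simpa [xt, tw_map_zero, sh_map_zero, add_comm] using this
  have hcl : Subgroup.closure E ≤ D := (Subgroup.closure_le _).2 hED
  -- connectivity
  have hstep : ∀ x y : X, Equiv.swap x y ∈ E → (x ∈ orbit (Subgroup.closure E) x0 ↔
      y ∈ orbit (Subgroup.closure E) x0) := by
    intro x y hxy
    have h1 : y ∈ orbit (Subgroup.closure E) x :=
      ⟨⟨Equiv.swap x y, Subgroup.subset_closure hxy⟩, by
        show Equiv.swap x y x = y
        simp⟩
    rw [← orbit_eq_iff] at h1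
    rw [← orbit_eq_iff, ← orbit_eq_iff, h1]
  have hm : ∀ (b : ℤ →₀ ZMod 3) (m : ℤ), (b, m) ∈ orbit (Subgroup.closure E) x0 ↔
      (b, 0) ∈ orbit (Subgroup.closure E) x0 := by
    intro b m
    induction m using Int.induction_on with
    | zero => exact Iff.rfl
    | succ n ih => rw [← ih]; exact (hstep _ _ ⟨b, n, Or.inr rfl⟩).symm
    | pred n ih =>
      rw [← ih]
      exact hstep _ _ ⟨b, -n - 1, Or.inr (by rw [sub_add_cancel])⟩
  have hb1 : ∀ (b : ℤ →₀ ZMod 3) (m : ℤ), (b, 0) ∈ orbit (Subgroup.closure E) x0 ↔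
      (b + Finsupp.single m 1, 0) ∈ orbit (Subgroup.closure E) x0 := by
    intro b m
    rw [← hm b m, ← hm (b + Finsupp.single m 1) m]
    exact hstep _ _ ⟨b, m, Or.inl rfl⟩
  have hb2 : ∀ (c b : ℤ →₀ ZMod 3), (b, 0) ∈ orbit (Subgroup.closure E) x0 ↔
      (b + c, 0) ∈ orbit (Subgroup.closure E) x0 := by
    intro c
    induction c using Finsupp.induction_linear with
    | zero => intro b; rw [add_zero]
    | add f g hf hg => intro b; rw [hf b, hg (b + f), add_assoc]
    | single i a =>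
      intro b
      have ha : a = 0 ∨ a = 1 ∨ a = 1 + 1 := by revert a; decide
      rcases ha with rfl | rfl | rfl
      · simp
      · exact hb1 b i
      · rw [hb1 b i, hb1 _ i, Finsupp.single_add, add_assoc]
  have hall : ∀ x : X, x ∈ orbit (Subgroup.closure E) x0 := by
    intro x
    have h1 : (0, 0) ∈ orbit (Subgroup.closure E) x0 := mem_orbit_self _
    have h2 := (hb2 x.1 0).1 h1
    rw [zero_add, ← hm x.1 x.2] at h2
    exact h2
  have hfin : ∀ σ : Equiv.Perm X, (fixedBy X σ)ᶜ.Finite → σ ∈ D := by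
    intro σ hσ
    apply hcl
    rw [mem_closure_isSwap hEs]
    refine ⟨hσ, fun x => ?_⟩
    have h1 := hall x
    rw [← orbit_eq_iff] at h1
    rw [h1]
    exact hall _
  rw [eq_top_iff]
  rintro p -
  obtain ⟨b, hb⟩ := p.2
  set σ : Equiv.Perm X := p.1.1 * (T b * rho false p.1.2)⁻¹ with hσ
  have hσf : (fixedBy X σ)ᶜ.Finite := by
    have h1 : ∀ᶠ x in cofinite, ((T b * rho false p.1.2)⁻¹) x = ((T b * rho false p.1.2)⁻¹) x :=
      Eventually.of_forall fun x => rfl
    have h2 := near_comp hb h1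
    rw [mul_inv_cancel, ← hσ] at h2
    exact h2
  obtain ⟨h, h'⟩ := (hD σ).1 (hfin σ hσf)
  have : p = ⟨(σ, 1), h⟩ * (trEl false b * lEl false p.1.2) := by
    ext1
    ext1
    · show p.1.1 = σ * (T b * rho false p.1.2)
      rw [hσ, inv_mul_cancel_right]
    · simp
  rw [this]
  exact P.mul_mem h' (P.mul_mem (ht _) (hl _))



/-! ### `GG true` is highly transitive -/

/-- the projection of `GG θ` to permutations of `X` -/
noncomputable def pr (θ : Bool) : GG θ →* Equiv.Perm X :=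
  (MonoidHom.fst (Equiv.Perm X) Lamp).comp (GG θ).subtype

@[simp] lemma pr_apply (θ : Bool) (p : GG θ) : pr θ p = p.1.1 := rfl

/-- the action of `GG θ` on `X` -/
noncomputable abbrev actX (θ : Bool) : MulAction (GG θ) X := MulAction.compHom X (pr θ)

open Classical in
lemma htX (θ : Bool) (F : Finset X) (x y : X) (hx : x ∉ F) (hy : y ∉ F) :
    ∃ g : GG θ, g.1.1 x = y ∧ ∀ z ∈ F, g.1.1 z = z := by
  refine ⟨swEl θ x y, by simp, ?_⟩
  intro z hz
  rw [swEl_fst]
  apply Equiv.swap_apply_of_ne_of_ne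
  · rintro rfl; exact hx hz
  · rintro rfl; exact hy hz

lemma sg_eq_one : ∀ a : ZMod 2, sg true a 1 = 1 → a = 0 := by decide

lemma faith (p : GG true) (h : ∀ x, p.1.1 x = x) : p = 1 := by
  obtain ⟨b, hb⟩ := p.2
  have h1 : ∀ᶠ x : X in cofinite, x = (b + tw true p.1.2.lamp (sh p.1.2.pos x.1),
      x.2 + p.1.2.pos) := by
    filter_upwards [hb] with x hx
    rw [h x] at hx
    exact hx
  -- for each configuration there are infinitely many positions
  have h2 : ∀ c : ℤ →₀ ZMod 3, c = b + tw true p.1.2.lamp (sh p.1.2.pos c) ∧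
      p.1.2.pos = 0 := by
    intro c
    have hinj : Function.Injective (fun m : ℤ => ((c, m) : X)) := by
      intro m m' hmm
      exact congrArg Prod.snd hmm
    obtain ⟨m, hm⟩ := (hinj.tendsto_cofinite.eventually h1).exists
    have e1 : c = b + tw true p.1.2.lamp (sh p.1.2.pos c) := congrArg Prod.fst hm
    have e2 : m = m + p.1.2.pos := congrArg Prod.snd hm
    exact ⟨e1, by omega⟩
  have hpos : p.1.2.pos = 0 := (h2 0).2
  have hb0 : b = 0 := by
    have := (h2 0).1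
    rw [sh_map_zero, tw_map_zero, add_zero] at this
    exact this.symm
  have hlamp : p.1.2.lamp = 0 := by
    ext i
    have := (h2 (Finsupp.single i 1)).1
    rw [hb0, hpos, zero_add, sh_zero, tw_single] at this
    have h3 := DFunLike.congr_fun this i
    rw [Finsupp.single_eq_same, Finsupp.single_eq_same] at h3
    exact sg_eq_one _ h3.symm
  ext1
  ext1
  · ext1 x; exact h x
  · ext1
    · exact hlamp
    · exact hpos

/-! ### the abelian normal subgroup of `GG false` -/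

/-- an infinite abelian normal subgroup of `GG false` -/
def NN : Subgroup (GG false) where
  carrier := {p | p.1.1 = 1 ∧ p.1.2.pos = 0}
  one_mem' := ⟨rfl, rfl⟩
  mul_mem' := by
    rintro p q ⟨h1, h2⟩ ⟨h3, h4⟩
    exact ⟨by simp [h1, h3], by simp [h2, h4]⟩
  inv_mem' := by
    rintro p ⟨h1, h2⟩
    exact ⟨by simp [h1], by simp [h2]⟩

lemma NN_normal : NN.Normal := by
  constructor
  rintro p ⟨h1, h2⟩ g
  refine ⟨?_, ?_⟩
  · simp [h1]
  · simp [h2]

lemma NN_comm : ∀ a ∈ NN, ∀ b ∈ NN, a * b = b * a := by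
  rintro p ⟨h1, h2⟩ q ⟨h3, h4⟩
  ext1
  ext1
  · simp [h1, h3]
  · ext1
    · simp [h2, h4, sh_zero, add_comm]
    · simp [h2, h4]

lemma NN_infinite : Infinite NN := by
  have hmem : ∀ ε : ℤ →₀ ZMod 2, lEl false ⟨ε, 0⟩ ∈ NN := by
    intro ε
    refine ⟨?_, rfl⟩
    rw [lEl_fst]
    ext1 x
    simp [tw_false, sh_zero]
  refine Infinite.of_injective (fun i : ℤ => (⟨lEl false ⟨Finsupp.single i 1, 0⟩, hmem _⟩ : NN)) ?_
  intro i j hij
  have h1 : (⟨Finsupp.single i 1, 0⟩ : Lamp) = ⟨Finsupp.single j 1, 0⟩ :=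
    congrArg (fun p : NN => p.1.1.2) hij
  have h2 : (Finsupp.single i 1 : ℤ →₀ ZMod 2) = Finsupp.single j 1 := congrArg Lamp.lamp h1
  exact (Finsupp.single_left_inj (by decide)).1 h2

end Pool.Agent.H38.HT
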