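import Mathlib

namespace Pool.Agent.H38.HT

open MulAction

universe u v

/-- extension of finite partial injections -/
lemma ht_ext {G : Type u} {Ω : Type v} [Group G] [MulAction G Ω]
    (h : ∀ k : ℕ, IsMultiplyPretransitive G Ω k) (s : Finset Ω) (f : Ω → Ω)
    (hf : Set.InjOn f s) : ∃ g : G, ∀ x ∈ s, g • x = f x := by
  classical
  have := h s.card
  let e : Fin s.card ≃ s := s.equivFin.symm
  let x : Fin s.card ↪ Ω := ⟨fun i => (e i : Ω), fun i j hij => e.injective (Subtype.ext hij)⟩
  let y : Fin s.card ↪ Ω := ⟨fun i => f (e i : Ω), fun i j hij =>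
    e.injective (Subtype.ext (hf (e i).2 (e j).2 hij))⟩
  obtain ⟨g, hg⟩ := this.exists_smul_eq x y
  refine ⟨g, fun z hz => ?_⟩
  have h1 : (g • x) (e.symm ⟨z, hz⟩) = y (e.symm ⟨z, hz⟩) := by rw [hg]
  have h2 : g • ((e (e.symm ⟨z, hz⟩) : s) : Ω) = f ((e (e.symm ⟨z, hz⟩) : s) : Ω) := h1
  rwa [e.apply_symm_apply] at h2

/-- single-move property implies high transitivity -/
lemma ht_of_move {G : Type u} {Ω : Type v} [Group G] [MulAction G Ω]
    (h : ∀ (F : Finset Ω) (x y : Ω), x ∉ F → y ∉ F → ∃ g : G, g • x = y ∧ ∀ z ∈ F, g • z = z)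
    (k : ℕ) : IsMultiplyPretransitive G Ω k := by
  classical
  refine ⟨fun x y => ?_⟩
  have key : ∀ j : ℕ, j ≤ k → ∃ g : G, ∀ i : Fin k, (i : ℕ) < j → g • x i = y i := by
    intro j
    induction j with
    | zero => intro _; exact ⟨1, fun i hi => absurd hi (Nat.not_lt_zero _)⟩
    | succ j ih =>
      intro hj
      obtain ⟨g, hg⟩ := ih (Nat.le_of_succ_le hj)
      let i₀ : Fin k := ⟨j, hj⟩
      let F : Finset Ω := (Finset.univ.filter (fun i : Fin k => (i : ℕ) < j)).image y
      have h1 : g • x i₀ ∉ F := by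
        intro hmem
        obtain ⟨i, hi, hiy⟩ := Finset.mem_image.1 hmem
        have hi' : (i : ℕ) < j := (Finset.mem_filter.1 hi).2
        rw [← hg i hi'] at hiy
        have : x i = x i₀ := smul_left_cancel g hiy
        have := x.injective this
        rw [this] at hi'
        exact lt_irrefl _ hi'
      have h2 : y i₀ ∉ F := by
        intro hmem
        obtain ⟨i, hi, hiy⟩ := Finset.mem_image.1 hmem
        have hi' : (i : ℕ) < j := (Finset.mem_filter.1 hi).2
        have := y.injective hiy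
        rw [this] at hi'
        exact lt_irrefl _ hi'
      obtain ⟨m, hm1, hm2⟩ := h F _ _ h1 h2
      refine ⟨m * g, fun i hi => ?_⟩
      rcases Nat.lt_succ_iff_lt_or_eq.1 hi with hlt | heq
      · rw [mul_smul, hg i hlt]
        exact hm2 _ (Finset.mem_image.2 ⟨i, Finset.mem_filter.2 ⟨Finset.mem_univ _, hlt⟩, rfl⟩)
      · have : i = i₀ := Fin.ext heq
        rw [this, mul_smul, hm1]
  obtain ⟨g, hg⟩ := key k le_rfl
  exact ⟨g, by ext i; exact hg i i.2⟩

/-- a nontrivial normal subgroup of a highly transitive group is highly transitive -/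
lemma ht_normal {G : Type u} {Ω : Type v} [Group G] [MulAction G Ω] [Infinite Ω]
    [FaithfulSMul G Ω]
    (h : ∀ k : ℕ, IsMultiplyPretransitive G Ω k) (N : Subgroup G) [N.Normal] (hN : N ≠ ⊥)
    (k : ℕ) : IsMultiplyPretransitive N Ω k := by
  classical
  refine ht_of_move ?_ k
  intro F x y hx hy
  by_cases hxy : x = y
  · subst hxy
    exact ⟨1, one_smul _ _, fun z _ => one_smul _ _⟩
  obtain ⟨⟨g, hgN⟩, hg1'⟩ := Subgroup.ne_bot_iff_exists_ne_one.1 hN
  have hg1 : g ≠ 1 := fun h => hg1' (Subtype.ext h)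
  obtain ⟨p, hp⟩ : ∃ p : Ω, g • p ≠ p := by
    by_contra hcon
    push Not at hcon
    exact hg1 (FaithfulSMul.eq_of_smul_eq_smul (α := Ω) (fun a => by rw [hcon a, one_smul]))
  obtain ⟨p₂, hp₂⟩ : ∃ p₂ : Ω, p₂ ∉ ({p, g⁻¹ • p} : Finset Ω) := Infinite.exists_notMem_finset _
  have hp2a : p₂ ≠ p := fun h => hp₂ (by simp [h])
  have hp2b : g • p₂ ≠ p := fun h => hp₂ (by simp [← h])
  -- injection avoiding a finite set
  obtain ⟨e, he⟩ : ∃ e : Ω ↪ Ω, ∀ z, e z ∉ insert x (insert y F) := by
    have hinf : (((insert x (insert y F) : Finset Ω) : Set Ω)ᶜ).Infinite :=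
      (Finset.finite_toSet _).infinite_compl
    have hc : Cardinal.mk (((insert x (insert y F) : Finset Ω) : Set Ω)ᶜ : Set Ω) = Cardinal.mk Ω := by
      apply Cardinal.mk_compl_of_infinite
      exact lt_of_lt_of_le (Cardinal.lt_aleph0_of_finite _) (Cardinal.aleph0_le_mk Ω)
    obtain ⟨E⟩ := Cardinal.eq.1 hc
    refine ⟨⟨fun z => (E.symm z : Ω), fun a b hab => E.symm.injective (Subtype.ext hab)⟩, fun z => ?_⟩
    have h2 : (E.symm z : Ω) ∉ insert x (insert y F) := by
      have := (E.symm z).2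
      simpa using this
    exact h2
  let f : Ω → Ω := fun z => if z = p then x else if z = p₂ then y else e z
  have he1 : ∀ z, e z ≠ x := fun z h => he z (by simp [h])
  have he2 : ∀ z, e z ≠ y := fun z h => he z (by simp [h])
  have he3 : ∀ z, e z ∉ F := fun z h => he z (by simp [h])
  have hf : Function.Injective f := by
    intro a b hab
    simp only [f] at hab
    split_ifs at hab with h1 h2 h3 h4 h5 h6 h7 h8
    all_goals first
      | (subst_vars; rfl)
      | exact absurd hab hxy
      | exact absurd hab (Ne.symm hxy)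
      | exact absurd hab.symm (he1 _)
      | exact absurd hab.symm (he2 _)
      | exact absurd hab (he1 _)
      | exact absurd hab (he2 _)
      | exact e.injective hab
  obtain ⟨c, hc⟩ := ht_ext h {p, p₂, g • p, g • p₂} f hf.injOn
  have hcp : c • p = x := by rw [hc p (by simp)]; simp [f]
  have hcp2 : c • p₂ = y := by rw [hc p₂ (by simp)]; simp [f, hp2a]
  have hcgp : c • g • p ∉ insert x F := by
    rw [hc _ (by simp)]
    simp only [f, if_neg hp]
    split_ifs with h1
    · simp [Ne.symm hxy, hy]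
    · simp [he1, he3]
  have hcgp2 : c • g • p₂ ∉ insert x F := by
    rw [hc _ (by simp)]
    simp only [f, if_neg hp2b]
    split_ifs with h1
    · simp [Ne.symm hxy, hy]
    · simp [he1, he3]
  set g' : G := c * g * c⁻¹ with hg'
  have hg'N : g' ∈ N := Subgroup.Normal.conj_mem inferInstance g hgN c
  have hcx : c⁻¹ • x = p := by rw [← hcp, inv_smul_smul]
  have hcy : c⁻¹ • y = p₂ := by rw [← hcp2, inv_smul_smul]
  have hg'x : g' • x ∉ insert x F := by
    rw [hg', mul_smul, mul_smul, hcx]; exact hcgp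
  have hg'y : g' • y ∉ insert x F := by
    rw [hg', mul_smul, mul_smul, hcy]; exact hcgp2
  let f₂ : Ω → Ω := fun z => if z = g' • x then g' • y else z
  let s₂ : Finset Ω := insert (g' • x) ((insert x F) ∪ F.image (fun z => g' • z))
  have hyI : g' • y ∉ F.image (fun z => g' • z) := by
    intro hm
    obtain ⟨z, hz, hzy⟩ := Finset.mem_image.1 hm
    have : z = y := smul_left_cancel g' hzy
    exact hy (this ▸ hz)
  have hxI : g' • x ∉ F.image (fun z => g' • z) := by
    intro hm
    obtain ⟨z, hz, hzy⟩ := Finset.mem_image.1 hm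
    have : z = x := smul_left_cancel g' hzy
    exact hx (this ▸ hz)
  have hf2 : Set.InjOn f₂ s₂ := by
    intro a ha b hb hab
    simp only [f₂] at hab
    have hmem : ∀ a ∈ (s₂ : Set Ω), a ≠ g' • x → a ≠ g' • y := by
      intro a ha hne heq
      rcases Finset.mem_insert.1 ha with h1 | h1
      · exact hne h1
      · rcases Finset.mem_union.1 h1 with h2 | h2
        · exact hg'y (heq ▸ h2)
        · exact hyI (heq ▸ h2)
    split_ifs at hab with h1 h2 h3
    · rw [h1, h2]
    · exact absurd hab.symm (hmem b hb h2)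
    · exact absurd hab (hmem a ha h1)
    · exact hab
  obtain ⟨t, ht⟩ := ht_ext h s₂ f₂ hf2
  have ht1 : t • (g' • x) = g' • y := by
    rw [ht _ (by simp [s₂])]; simp [f₂]
  have htF : ∀ z ∈ insert x F, t • z = z := by
    intro z hz
    rw [ht z (by simp only [s₂]; exact Finset.mem_insert_of_mem (Finset.mem_union_left _ hz))]
    simp only [f₂]
    rw [if_neg]
    intro h; exact hg'x (h ▸ hz)
  have htG : ∀ z ∈ F, t • (g' • z) = g' • z := by
    intro z hz
    have hz' : g' • z ∈ F.image (fun z => g' • z) := Finset.mem_image_of_mem _ hz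
    rw [ht _ (by simp only [s₂]; exact Finset.mem_insert_of_mem (Finset.mem_union_right _ hz'))]
    simp only [f₂]
    rw [if_neg]
    intro h; exact hxI (h ▸ hz')
  have htinv : ∀ z ∈ insert x F, t⁻¹ • z = z := by
    intro z hz
    rw [inv_smul_eq_iff, htF z hz]
  have hn : g'⁻¹ * (t * g' * t⁻¹) ∈ N :=
    N.mul_mem (N.inv_mem hg'N) (Subgroup.Normal.conj_mem inferInstance g' hg'N t)
  refine ⟨⟨_, hn⟩, ?_, ?_⟩
  · show (g'⁻¹ * (t * g' * t⁻¹)) • x = y
    rw [mul_smul, mul_smul, mul_smul, htinv x (Finset.mem_insert_self _ _), ht1, inv_smul_smul]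
  · intro z hz
    show (g'⁻¹ * (t * g' * t⁻¹)) • z = z
    rw [mul_smul, mul_smul, mul_smul, htinv z (Finset.mem_insert_of_mem hz), htG z hz,
      inv_smul_smul]

end Pool.Agent.H38.HT
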